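import Mathlib

/-!
# A 3-group of order 729 with a nontrivial absolute centre

The group is `(ZMod 9)^3` with multiplication `x * y = x + y + 6 (x ×' y)`, where
`x ×' y = (x₁y₂ - x₂y₁, x₂y₃ - x₃y₂, x₃y₁ - x₁y₃)`.
-/

set_option autoImplicit false

namespace Pool.Agent.R677.AbsModel

/-- the underlying set of the group -/
@[ext] structure Gp where
  /-- first coordinate -/
  a : ZMod 9
  /-- second coordinate -/
  b : ZMod 9
  /-- third coordinate -/
  c : ZMod 9

/-- `Gp` is a product of three copies of `ZMod 9` -/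
def eqv : Gp ≃ ZMod 9 × ZMod 9 × ZMod 9 where
  toFun x := (x.a, x.b, x.c)
  invFun p := ⟨p.1, p.2.1, p.2.2⟩
  left_inv _ := rfl
  right_inv _ := rfl

instance : Fintype Gp := Fintype.ofEquiv _ eqv.symm

instance : Mul Gp := ⟨fun x y =>
  ⟨x.a + y.a + 6 * (x.a * y.b - x.b * y.a),
   x.b + y.b + 6 * (x.b * y.c - x.c * y.b),
   x.c + y.c + 6 * (x.c * y.a - x.a * y.c)⟩⟩

instance : One Gp := ⟨⟨0, 0, 0⟩⟩

instance : Inv Gp := ⟨fun x => ⟨-x.a, -x.b, -x.c⟩⟩

lemma mul_a (x y : Gp) : (x * y).a = x.a + y.a + 6 * (x.a * y.b - x.b * y.a) := rfl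
lemma mul_b (x y : Gp) : (x * y).b = x.b + y.b + 6 * (x.b * y.c - x.c * y.b) := rfl
lemma mul_c (x y : Gp) : (x * y).c = x.c + y.c + 6 * (x.c * y.a - x.a * y.c) := rfl
lemma one_a : (1 : Gp).a = 0 := rfl
lemma one_b : (1 : Gp).b = 0 := rfl
lemma one_c : (1 : Gp).c = 0 := rfl
lemma inv_a (x : Gp) : (x⁻¹).a = -x.a := rfl
lemma inv_b (x : Gp) : (x⁻¹).b = -x.b := rfl
lemma inv_c (x : Gp) : (x⁻¹).c = -x.c := rfl

lemma nine : (9 : ZMod 9) = 0 := by decide

instance : Group Gp where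
  mul_assoc x y z := by
    ext
    · simp only [mul_a, mul_b]
      linear_combination (4 * ((x.a * y.b - x.b * y.a) * z.b - (x.b * y.c - x.c * y.b) * z.a)
        - 4 * (x.a * (y.b * z.c - y.c * z.b) - x.b * (y.a * z.b - y.b * z.a))) * nine
    · simp only [mul_b, mul_c]
      linear_combination (4 * ((x.b * y.c - x.c * y.b) * z.c - (x.c * y.a - x.a * y.c) * z.b)
        - 4 * (x.b * (y.c * z.a - y.a * z.c) - x.c * (y.b * z.c - y.c * z.b))) * nine
    · simp only [mul_c, mul_a]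
      linear_combination (4 * ((x.c * y.a - x.a * y.c) * z.a - (x.a * y.b - x.b * y.a) * z.c)
        - 4 * (x.c * (y.a * z.b - y.b * z.a) - x.a * (y.c * z.a - y.a * z.c))) * nine
  one_mul x := by ext <;> simp [mul_a, mul_b, mul_c, one_a, one_b, one_c]
  mul_one x := by ext <;> simp [mul_a, mul_b, mul_c, one_a, one_b, one_c]
  inv_mul_cancel x := by
    ext
    · simp only [mul_a, inv_a, inv_b, one_a]; ring
    · simp only [mul_b, inv_b, inv_c, one_b]; ring
    · simp only [mul_c, inv_c, inv_a, one_c]; ring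

/-- reduction modulo three -/
def red : ZMod 9 →+* ZMod 3 := ZMod.castHom (by norm_num) (ZMod 3)

/-- the three-adic digit of an element of `3 ZMod 9` -/
def dv (a : ZMod 9) : ZMod 3 := ((a.val / 3 : ℕ) : ZMod 3)

/-- the embedding of `ZMod 3` in `ZMod 9` with image `3 ZMod 9` -/
def em (t : ZMod 3) : ZMod 9 := 3 * ((t.val : ℕ) : ZMod 9)

lemma red_six : red 6 = 0 := by decide
lemma six_mul_of_red : ∀ a : ZMod 9, red a = 0 → 6 * a = 0 := by decide
lemma three_mul_of_red : ∀ a : ZMod 9, red a = 0 → 3 * a = 0 := by decide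
lemma dv_three : ∀ a : ZMod 9, dv (3 * a) = red a := by decide
lemma dv_six : ∀ a : ZMod 9, dv (6 * a) = 2 * red a := by decide
lemma dv_neg : ∀ a : ZMod 9, red a = 0 → dv (-a) = -dv a := by decide
lemma dv_add : ∀ a : ZMod 9, red a = 0 → ∀ b : ZMod 9, red b = 0 → dv (a + b) = dv a + dv b := by
  decide
lemma dv_mul : ∀ a b : ZMod 9, red b = 0 → dv (a * b) = red a * dv b := by decide
lemma em_dv : ∀ a : ZMod 9, red a = 0 → em (dv a) = a := by decide
lemma em_neg : ∀ t : ZMod 3, em (-t) = -em t := by decide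
lemma red_em : ∀ t : ZMod 3, red (em t) = 0 := by decide
lemma dv_em : ∀ t : ZMod 3, dv (em t) = t := by decide
lemma red_zero_iff : ∀ a : ZMod 9, red a = 0 → ∃ t : ZMod 9, a = 3 * t := by decide

/-- `x` lies in the centre (the elements congruent to zero modulo three) -/
def Zr (x : Gp) : Prop := red x.a = 0 ∧ red x.b = 0 ∧ red x.c = 0

lemma mul_a_Zr (x z : Gp) (hz : Zr z) : (x * z).a = x.a + z.a := by
  obtain ⟨s, hs⟩ := red_zero_iff _ hz.1
  obtain ⟨t, ht⟩ := red_zero_iff _ hz.2.1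
  rw [mul_a, hs, ht]
  linear_combination (2 * (x.a * t - x.b * s)) * nine

lemma mul_b_Zr (x z : Gp) (hz : Zr z) : (x * z).b = x.b + z.b := by
  obtain ⟨s, hs⟩ := red_zero_iff _ hz.2.1
  obtain ⟨t, ht⟩ := red_zero_iff _ hz.2.2
  rw [mul_b, hs, ht]
  linear_combination (2 * (x.b * t - x.c * s)) * nine

lemma mul_c_Zr (x z : Gp) (hz : Zr z) : (x * z).c = x.c + z.c := by
  obtain ⟨s, hs⟩ := red_zero_iff _ hz.2.2
  obtain ⟨t, ht⟩ := red_zero_iff _ hz.1
  rw [mul_c, hs, ht]
  linear_combination (2 * (x.c * t - x.a * s)) * nine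

lemma Zr_comm (x z : Gp) (hz : Zr z) : z * x = x * z := by
  obtain ⟨s, hs⟩ := red_zero_iff _ hz.1
  obtain ⟨t, ht⟩ := red_zero_iff _ hz.2.1
  obtain ⟨u, hu⟩ := red_zero_iff _ hz.2.2
  ext
  · rw [mul_a, mul_a, hs, ht]
    linear_combination (4 * (s * x.b - t * x.a)) * nine
  · rw [mul_b, mul_b, ht, hu]
    linear_combination (4 * (t * x.c - u * x.b)) * nine
  · rw [mul_c, mul_c, hu, hs]
    linear_combination (4 * (u * x.a - s * x.c)) * nine

lemma Zr_one : Zr 1 := ⟨map_zero _, map_zero _, map_zero _⟩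

lemma Zr_mul (x y : Gp) (hx : Zr x) (hy : Zr y) : Zr (x * y) := by
  refine ⟨?_, ?_, ?_⟩
  · rw [mul_a_Zr x y hy, map_add, hx.1, hy.1, add_zero]
  · rw [mul_b_Zr x y hy, map_add, hx.2.1, hy.2.1, add_zero]
  · rw [mul_c_Zr x y hy, map_add, hx.2.2, hy.2.2, add_zero]

lemma Zr_inv (x : Gp) (hx : Zr x) : Zr x⁻¹ := by
  refine ⟨?_, ?_, ?_⟩
  · rw [inv_a, map_neg, hx.1, neg_zero]
  · rw [inv_b, map_neg, hx.2.1, neg_zero]
  · rw [inv_c, map_neg, hx.2.2, neg_zero]

/-- powers are multiples -/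
lemma pow_eq (x : Gp) (n : ℕ) : x ^ n = ⟨n * x.a, n * x.b, n * x.c⟩ := by
  induction n with
  | zero => ext <;> simp [one_a, one_b, one_c]
  | succ n ih =>
    rw [pow_succ, ih]
    ext
    · rw [mul_a]; push_cast; ring
    · rw [mul_b]; push_cast; ring
    · rw [mul_c]; push_cast; ring

lemma zpow_eq (x : Gp) (n : ℤ) : x ^ n = ⟨n * x.a, n * x.b, n * x.c⟩ := by
  obtain ⟨m, rfl | rfl⟩ := n.eq_nat_or_neg
  · rw [zpow_natCast, pow_eq]; simp
  · rw [zpow_neg, zpow_natCast, pow_eq]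
    ext
    · rw [inv_a]; push_cast; ring
    · rw [inv_b]; push_cast; ring
    · rw [inv_c]; push_cast; ring

/-- the three reduction homomorphisms -/
def ρa : Gp →* Multiplicative (ZMod 3) where
  toFun x := Multiplicative.ofAdd (red x.a)
  map_one' := by rw [one_a, map_zero]; rfl
  map_mul' x y := by
    rw [← ofAdd_add]; congr 1
    rw [mul_a, map_add, map_add, map_mul, red_six, zero_mul, add_zero]

/-- the three reduction homomorphisms -/
def ρb : Gp →* Multiplicative (ZMod 3) where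
  toFun x := Multiplicative.ofAdd (red x.b)
  map_one' := by rw [one_b, map_zero]; rfl
  map_mul' x y := by
    rw [← ofAdd_add]; congr 1
    rw [mul_b, map_add, map_add, map_mul, red_six, zero_mul, add_zero]

/-- the three reduction homomorphisms -/
def ρc : Gp →* Multiplicative (ZMod 3) where
  toFun x := Multiplicative.ofAdd (red x.c)
  map_one' := by rw [one_c, map_zero]; rfl
  map_mul' x y := by
    rw [← ofAdd_add]; congr 1
    rw [mul_c, map_add, map_add, map_mul, red_six, zero_mul, add_zero]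

lemma Zr_of_rho (x : Gp) (ha : ρa x = 1) (hb : ρb x = 1) (hc : ρc x = 1) : Zr x :=
  ⟨Multiplicative.ofAdd.injective ha, Multiplicative.ofAdd.injective hb,
    Multiplicative.ofAdd.injective hc⟩

lemma Zr_cube (z : Gp) (hz : Zr z) : z ^ 3 = 1 := by
  rw [pow_eq]
  ext
  · exact three_mul_of_red _ hz.1
  · exact three_mul_of_red _ hz.2.1
  · exact three_mul_of_red _ hz.2.2

/-! ### the absolute centre -/

/-- the first generator -/
def e₁ : Gp := ⟨1, 0, 0⟩
/-- the second generator -/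
def e₂ : Gp := ⟨0, 1, 0⟩
/-- the third generator -/
def e₃ : Gp := ⟨0, 0, 1⟩

lemma red_of_three : ∀ a : ZMod 9, 3 * a = 0 → red a = 0 := by decide

lemma Zr_pow_three (x : Gp) : Zr (x ^ 3) := by
  rw [pow_eq]
  have h : ∀ a : ZMod 9, red (((3 : ℕ) : ZMod 9) * a) = 0 := by decide
  exact ⟨h _, h _, h _⟩

/-- the coordinates of a relation `x * y = x ^ 3 * (y * x)` -/
lemma rel_coord (x y : Gp) (h : x * y = x ^ 3 * (y * x)) :
    red x.a * red y.b - red x.b * red y.a = red x.a ∧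
    red x.b * red y.c - red x.c * red y.b = red x.b ∧
    red x.c * red y.a - red x.a * red y.c = red x.c := by
  rw [Zr_comm _ _ (Zr_pow_three x)] at h
  have ha := congrArg Gp.a h
  have hb := congrArg Gp.b h
  have hc := congrArg Gp.c h
  rw [mul_a_Zr _ _ (Zr_pow_three x), pow_eq, mul_a, mul_a] at ha
  rw [mul_b_Zr _ _ (Zr_pow_three x), pow_eq, mul_b, mul_b] at hb
  rw [mul_c_Zr _ _ (Zr_pow_three x), pow_eq, mul_c, mul_c] at hc
  simp only at ha hb hc
  push_cast at ha hb hc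
  refine ⟨?_, ?_, ?_⟩
  · have h1 := red_of_three (x.a * y.b - x.b * y.a - x.a) (by
      linear_combination ha - (x.a * y.b - x.b * y.a) * nine)
    simp only [map_sub, map_mul] at h1
    linear_combination h1
  · have h1 := red_of_three (x.b * y.c - x.c * y.b - x.b) (by
      linear_combination hb - (x.b * y.c - x.c * y.b) * nine)
    simp only [map_sub, map_mul] at h1
    linear_combination h1
  · have h1 := red_of_three (x.c * y.a - x.a * y.c - x.c) (by
      linear_combination hc - (x.c * y.a - x.a * y.c) * nine)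
    simp only [map_sub, map_mul] at h1
    linear_combination h1

/-- the product of the three-dimensional algebra -/
def cr (x y : ZMod 3 × ZMod 3 × ZMod 3) : ZMod 3 × ZMod 3 × ZMod 3 :=
  (x.1 * y.2.1 - x.2.1 * y.1, x.2.1 * y.2.2 - x.2.2 * y.2.1, x.2.2 * y.1 - x.1 * y.2.2)

/-- the conclusion for two given vectors -/
def Concl (x y : ZMod 3 × ZMod 3 × ZMod 3) : Prop :=
  ∀ z : ZMod 3 × ZMod 3 × ZMod 3, cr y z = y → cr z x = z → x = 0 ∨ x + y + z = (1, 1, 1)

instance (x y : ZMod 3 × ZMod 3 × ZMod 3) : Decidable (Concl x y) := by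
  unfold Concl; infer_instance

lemma key : ∀ x y : ZMod 3 × ZMod 3 × ZMod 3, cr x y = x → Concl x y := by
  decide

/-- the reduction of an element -/
def rd (x : Gp) : ZMod 3 × ZMod 3 × ZMod 3 := (red x.a, red x.b, red x.c)

/-- the special central element -/
def z₀ : Gp := ⟨3, 3, 3⟩

lemma z₀_eq : z₀ = e₁ ^ 3 * e₂ ^ 3 * e₃ ^ 3 := by
  rw [pow_eq, pow_eq, pow_eq]
  ext <;> simp only [e₁, e₂, e₃, z₀, mul_a, mul_b, mul_c] <;> decide

lemma z₀_order : orderOf z₀ = 3 := by
  refine orderOf_eq_prime (Zr_cube z₀ ⟨by decide, by decide, by decide⟩) ?_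
  intro h
  have := congrArg Gp.a h
  revert this
  simp only [z₀, one_a]
  decide

lemma rel₁ : e₁ * e₂ = e₁ ^ 3 * (e₂ * e₁) := by
  rw [pow_eq]
  ext <;> simp only [e₁, e₂, mul_a, mul_b, mul_c] <;> decide
lemma rel₂ : e₂ * e₃ = e₂ ^ 3 * (e₃ * e₂) := by
  rw [pow_eq]
  ext <;> simp only [e₂, e₃, mul_a, mul_b, mul_c] <;> decide
lemma rel₃ : e₃ * e₁ = e₃ ^ 3 * (e₁ * e₃) := by
  rw [pow_eq]
  ext <;> simp only [e₃, e₁, mul_a, mul_b, mul_c] <;> decide

lemma three_red : ∀ a b : ZMod 9, red a = red b → 3 * a = 3 * b := by decide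

/-- every automorphism fixes the element `z₀` -/
theorem fixed (α : Gp ≃* Gp) : α z₀ = z₀ := by
  have h₁ := congrArg α rel₁
  have h₂ := congrArg α rel₂
  have h₃ := congrArg α rel₃
  simp only [map_mul, map_pow] at h₁ h₂ h₃
  set x := α e₁ with hx
  set y := α e₂ with hy
  set z := α e₃ with hz
  obtain ⟨a₁, a₂, a₃⟩ := rel_coord _ _ h₁
  obtain ⟨b₁, b₂, b₃⟩ := rel_coord _ _ h₂
  obtain ⟨c₁, c₂, c₃⟩ := rel_coord _ _ h₃
  have hk := key (rd x) (rd y) (Prod.ext a₁ (Prod.ext a₂ a₃)) (rd z) (Prod.ext b₁ (Prod.ext b₂ b₃))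
    (Prod.ext c₁ (Prod.ext c₂ c₃))
  rcases hk with h | h
  · exfalso
    have h4 : x ^ 3 = 1 := Zr_cube x ⟨congrArg Prod.fst h, congrArg (fun t => t.2.1) h,
      congrArg (fun t => t.2.2) h⟩
    rw [hx, ← map_pow] at h4
    have h5 : e₁ ^ 3 = 1 := (MulEquiv.map_eq_one_iff α).1 h4
    rw [pow_eq] at h5
    have h6 := congrArg Gp.a h5
    revert h6
    simp only [e₁, one_a]
    decide
  · have s₁ : red x.a + red y.a + red z.a = 1 := congrArg Prod.fst h
    have s₂ : red x.b + red y.b + red z.b = 1 := congrArg (fun t => t.2.1) h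
    have s₃ : red x.c + red y.c + red z.c = 1 := congrArg (fun t => t.2.2) h
    have h4 : α z₀ = x ^ 3 * y ^ 3 * z ^ 3 := by
      rw [z₀_eq, map_mul, map_mul, map_pow, map_pow, map_pow]
    rw [h4]
    have zy := Zr_pow_three y
    have zz := Zr_pow_three z
    ext
    · rw [mul_a_Zr _ _ zz, mul_a_Zr _ _ zy, pow_eq, pow_eq, pow_eq]
      have := three_red (x.a + y.a + z.a) 1 (by rw [map_add, map_add, s₁, map_one])
      simp only [z₀]
      push_cast
      linear_combination this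
    · rw [mul_b_Zr _ _ zz, mul_b_Zr _ _ zy, pow_eq, pow_eq, pow_eq]
      have := three_red (x.b + y.b + z.b) 1 (by rw [map_add, map_add, s₂, map_one])
      simp only [z₀]
      push_cast
      linear_combination this
    · rw [mul_c_Zr _ _ zz, mul_c_Zr _ _ zy, pow_eq, pow_eq, pow_eq]
      have := three_red (x.c + y.c + z.c) 1 (by rw [map_add, map_add, s₃, map_one])
      simp only [z₀]
      push_cast
      linear_combination this

end Pool.Agent.R677.AbsModel
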