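import Mathlib

/-!
# Values of characters of finite-dimensional complex representations of finite groups

Integrality, behaviour under complex conjugation and inflation along surjections.
-/

set_option autoImplicit false

open scoped BigOperators Classical
open CategoryTheory

noncomputable section

namespace Pool.Agent.R677.CharInt

variable {G : Type} [Group G] [Finite G]

omit [Finite G] in
lemma eigen_pow (V : FDRep ℂ G) (g : G) (μ : ℂ)
    (hμ : μ ∈ (LinearMap.charpoly (V.ρ g)).roots) : μ ^ orderOf g = 1 := by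
  have h1 : (LinearMap.charpoly (V.ρ g)).IsRoot μ := (Polynomial.mem_roots'.mp hμ).2
  have h2 := (Module.End.hasEigenvalue_iff_isRoot_charpoly (V.ρ g) μ).mpr h1
  obtain ⟨v, hv⟩ := h2.exists_hasEigenvector
  have h3 : ∀ n : ℕ, ((V.ρ g) ^ n) v = μ ^ n • v := fun n => by
    induction n with
    | zero => simp
    | succ n ih =>
      rw [pow_succ', Module.End.mul_apply, ih, map_smul, hv.apply_eq_smul, smul_smul, pow_succ]
  have h4 := h3 (orderOf g)
  rw [← map_pow, pow_orderOf_eq_one, map_one, Module.End.one_apply] at h4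
  have h6 : (μ ^ orderOf g - 1) • v = 0 := by
    rw [sub_smul, one_smul, ← h4, sub_self]
  rcases smul_eq_zero.mp h6 with h7 | h7
  · exact sub_eq_zero.mp h7
  · exact absurd h7 hv.2

/-- character values are algebraic integers -/
lemma isIntegral_char (V : FDRep ℂ G) (g : G) : IsIntegral ℤ (V.character g) := by
  show IsIntegral ℤ (LinearMap.trace ℂ V (V.ρ g))
  rw [Module.End.trace_eq_sum_roots_charpoly_of_splits (IsAlgClosed.splits _)]
  have key : ∀ μ ∈ (LinearMap.charpoly (V.ρ g)).roots, IsIntegral ℤ μ := by
    intro μ hμ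
    refine ⟨Polynomial.X ^ orderOf g - 1, Polynomial.monic_X_pow_sub_C 1 (orderOf_pos g).ne' , ?_⟩
    simp [eigen_pow V g μ hμ]
  generalize (LinearMap.charpoly (V.ρ g)).roots = s at key
  induction s using Multiset.induction_on with
  | empty => simpa using isIntegral_zero
  | cons a s ih =>
    rw [Multiset.sum_cons]
    exact (key a (Multiset.mem_cons_self a s)).add
      (ih (fun μ hμ => key μ (Multiset.mem_cons_of_mem hμ)))

lemma isIntegral_star {z : ℂ} (h : IsIntegral ℤ z) : IsIntegral ℤ (star z) := by
  have := h.map (starRingEnd ℂ).toIntAlgHom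
  simpa using this

/-- inflation of a representation of `Q` along a homomorphism `G → Q` -/
def infl {G Q : Type} [Group G] [Group Q] (φ : G →* Q) (V : FDRep ℂ Q) : FDRep ℂ G :=
  FDRep.of (V.ρ.comp φ)

lemma infl_char {G Q : Type} [Group G] [Group Q] (φ : G →* Q) (V : FDRep ℂ Q) (g : G) :
    (infl φ V).character g = V.character (φ g) := rfl

/-- summation over a group through a surjective homomorphism -/
lemma sum_comp {G Q : Type} [Group G] [Group Q] [Fintype G] [Fintype Q] (φ : G →* Q)
    (hφ : Function.Surjective φ) (f : Q → ℂ) :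
    ∑ g : G, f (φ g) = (Nat.card φ.ker : ℂ) * ∑ q : Q, f q := by
  rw [← Finset.sum_fiberwise (s := Finset.univ) (g := fun g => φ g), Finset.mul_sum]
  refine Finset.sum_congr rfl fun q _ => ?_
  have h1 : ∀ g ∈ Finset.univ.filter (fun g : G => φ g = q), f (φ g) = f q := by
    intro g hg
    rw [Finset.mem_filter] at hg
    rw [hg.2]
  rw [Finset.sum_congr rfl h1, Finset.sum_const, nsmul_eq_mul]
  congr 2
  obtain ⟨g₀, hg₀⟩ := hφ q
  rw [← Fintype.card_subtype, ← Nat.card_eq_fintype_card]
  refine Nat.card_congr
    { toFun := fun g => ⟨g₀⁻¹ * g.1, by rw [MonoidHom.mem_ker, map_mul, map_inv, hg₀, g.2]; simp⟩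
      invFun := fun n => ⟨g₀ * n.1, by
        have := n.2
        rw [MonoidHom.mem_ker] at this
        rw [map_mul, this, hg₀, mul_one]⟩
      left_inv := fun g => by apply Subtype.ext; simp
      right_inv := fun n => by apply Subtype.ext; simp }

lemma card_eq {G Q : Type} [Group G] [Group Q] [Finite G] [Finite Q] (φ : G →* Q)
    (hφ : Function.Surjective φ) : Nat.card G = Nat.card φ.ker * Nat.card Q := by
  have h1 := Subgroup.card_eq_card_quotient_mul_card_subgroup φ.ker
  rw [h1, mul_comm]
  congr 1
  exact Nat.card_congr (QuotientGroup.quotientKerEquivOfSurjective φ hφ).toEquiv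

/-- the inflation of a simple representation is simple -/
lemma infl_simple {G Q : Type} [Group G] [Group Q] [Finite G] [Finite Q] (φ : G →* Q)
    (hφ : Function.Surjective φ) (V : FDRep ℂ Q) (hV : Simple V) : Simple (infl φ V) := by
  let _ : Fintype G := Fintype.ofFinite G
  let _ : Fintype Q := Fintype.ofFinite Q
  rw [FDRep.simple_iff_char_is_norm_one] at hV ⊢
  have h1 : ∀ g : G, (infl φ V).character g * (infl φ V).character g⁻¹ =
      (fun q => V.character q * V.character q⁻¹) (φ g) := by
    intro g
    simp only [infl_char, map_inv]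
  rw [Finset.sum_congr rfl fun g _ => h1 g,
    sum_comp φ hφ (fun q => V.character q * V.character q⁻¹), hV, card_eq φ hφ]
  push_cast
  ring

/-- a rational algebraic integer is an integer -/
lemma int_of_rat {z : ℂ} (h : IsIntegral ℤ z) (a b : ℤ) (hb : b ≠ 0) (hz : (b : ℂ) * z = a) :
    ∃ m : ℤ, z = m := by
  have hb' : (b : ℂ) ≠ 0 := by exact_mod_cast hb
  have h1 : z = ((a / b : ℚ) : ℂ) := by
    push_cast
    rw [← hz]
    field_simp
  rw [h1] at h
  have h2 : IsIntegral ℤ (a / b : ℚ) := by
    have h3 : IsIntegral ℤ (algebraMap ℚ ℂ (a / b : ℚ)) := by simpa using h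
    exact (isIntegral_algebraMap_iff (algebraMap ℚ ℂ).injective).1 h3
  obtain ⟨m, hm⟩ := IsIntegrallyClosed.isIntegral_iff.1 h2
  refine ⟨m, ?_⟩
  rw [h1, ← hm]
  simp

end Pool.Agent.R677.CharInt
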