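import Mathlib

/-!
# Integrality of word-map multiplicities

For a finite group `Q`, a homomorphism `deg : F → ℤ` (written multiplicatively) with an element `y`
of degree one and an element `w` of degree zero, the sum of `f (φ w)` over all homomorphisms
`φ : F → Q` is `|Q|` times an algebraic integer, for every class function `f` with algebraic
integer values.
-/

set_option autoImplicit false

open scoped BigOperators Classical

noncomputable section

namespace Pool.Agent.R677.WordInt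

section twist

variable {F Q : Type} [Group F] [Group Q] (deg : F →* Multiplicative ℤ) (y : F)
  (hy : deg y = Multiplicative.ofAdd 1)

/-- the degree as an integer -/
def dg (v : F) : ℤ := Multiplicative.toAdd (deg v)

lemma dg_mul (u v : F) : dg deg (u * v) = dg deg u + dg deg v := by
  simp [dg, map_mul]

lemma dg_ker {u : F} : u ∈ deg.ker ↔ dg deg u = 0 := by
  rw [MonoidHom.mem_ker]
  constructor
  · intro h; simp [dg, h]
  · intro h; exact Multiplicative.toAdd.injective (by simpa [dg] using h)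

include hy in
lemma dg_zpow (n : ℤ) : dg deg (y ^ n) = n := by
  simp [dg, map_zpow, hy, toAdd_zpow]

include hy in
lemma mul_zpow_mem (v : F) : v * y ^ (-(dg deg v)) ∈ deg.ker := by
  rw [dg_ker, dg_mul, dg_zpow deg y hy]; ring

variable (φ : F →* Q) (z : Q) (hz : ∀ u ∈ deg.ker, z * φ u = φ u * z)

include hz in
lemma conj_eq (u : F) (hu : u ∈ deg.ker) :
    (φ y * z) * φ u = φ (y * u * y⁻¹) * (φ y * z) := by
  rw [mul_assoc, hz u hu, map_mul, map_mul, map_inv]
  group

include hz in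
lemma conj_eq_pow (n : ℕ) : ∀ u ∈ deg.ker,
    (φ y * z) ^ n * φ u = φ (y ^ n * u * (y ^ n)⁻¹) * (φ y * z) ^ n := by
  induction n with
  | zero => intro u _; simp
  | succ n ih =>
    intro u hu
    rw [pow_succ, mul_assoc, conj_eq deg y φ z hz u hu, ← mul_assoc,
      ih (y * u * y⁻¹) (deg.normal_ker.conj_mem u hu y), mul_assoc]
    congr 2
    rw [pow_succ]; group

include hz in
lemma conj_eq_zpow (n : ℤ) (u : F) (hu : u ∈ deg.ker) :
    (φ y * z) ^ n * φ u = φ (y ^ n * u * (y ^ n)⁻¹) * (φ y * z) ^ n := by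
  obtain ⟨m, rfl | rfl⟩ := n.eq_nat_or_neg
  · simpa using conj_eq_pow deg y φ z hz m u hu
  · have h := conj_eq_pow deg y φ z hz m ((y ^ m)⁻¹ * u * y ^ m)
      (by simpa using deg.normal_ker.conj_mem u hu (y ^ m)⁻¹)
    have e : y ^ m * ((y ^ m)⁻¹ * u * y ^ m) * (y ^ m)⁻¹ = u := by group
    rw [e] at h
    rw [zpow_neg, zpow_natCast, zpow_neg, zpow_natCast, inv_inv]
    rw [inv_mul_eq_iff_eq_mul, ← mul_assoc, h]
    group

/-- the homomorphism agreeing with `φ` on the kernel of `deg` and sending `y` to `φ y * z` -/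
def twist : F →* Q where
  toFun v := φ (v * y ^ (-(dg deg v))) * (φ y * z) ^ (dg deg v)
  map_one' := by simp [dg]
  map_mul' v₁ v₂ := by
    have h2 := mul_zpow_mem deg y hy v₂
    have h := conj_eq_zpow deg y φ z hz (dg deg v₁) _ h2
    calc φ (v₁ * v₂ * y ^ (-(dg deg (v₁ * v₂)))) * (φ y * z) ^ (dg deg (v₁ * v₂))
        = φ (v₁ * y ^ (-(dg deg v₁))) * (φ (y ^ (dg deg v₁) * (v₂ * y ^ (-(dg deg v₂))) *
            (y ^ (dg deg v₁))⁻¹) * (φ y * z) ^ (dg deg v₁)) * (φ y * z) ^ (dg deg v₂) := by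
          rw [dg_mul, zpow_add, ← mul_assoc, ← mul_assoc, ← map_mul]
          congr 3
          rw [neg_add, zpow_add]
          group
      _ = φ (v₁ * y ^ (-(dg deg v₁))) * (φ y * z) ^ (dg deg v₁) *
            (φ (v₂ * y ^ (-(dg deg v₂))) * (φ y * z) ^ (dg deg v₂)) := by
          rw [← h]; simp only [mul_assoc]

lemma twist_ker (u : F) (hu : u ∈ deg.ker) : twist deg y hy φ z hz u = φ u := by
  have h : dg deg u = 0 := (dg_ker deg).1 hu
  simp [twist, h]

lemma twist_y : twist deg y hy φ z hz y = φ y * z := by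
  have h : dg deg y = 1 := by simpa using dg_zpow deg y hy 1
  simp [twist, h]

include hy in
lemma ext_ker {φ ψ : F →* Q} (h : ∀ u ∈ deg.ker, φ u = ψ u) (h' : φ y = ψ y) : φ = ψ := by
  ext v
  have e : v = (v * y ^ (-(dg deg v))) * y ^ (dg deg v) := by group
  rw [e, map_mul φ, map_mul ψ, h _ (mul_zpow_mem deg y hy v), map_zpow, map_zpow, h']

/-- the fibre of restriction to the kernel is in bijection with a centralizer -/
def fibreEquiv : {ψ : F →* Q // ∀ u ∈ deg.ker, ψ u = φ u} ≃
    {z : Q // ∀ u ∈ deg.ker, z * φ u = φ u * z} where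
  toFun ψ := ⟨(φ y)⁻¹ * ψ.1 y, by
    intro u hu
    have hm := deg.normal_ker.conj_mem u hu y
    have h1 := ψ.2 _ hm
    rw [map_mul, map_mul, map_inv, map_mul, map_mul, map_inv, ψ.2 u hu] at h1
    have h2 : ψ.1 y * φ u = φ y * φ u * (φ y)⁻¹ * ψ.1 y := by rw [← h1]; group
    rw [mul_assoc, h2]; group⟩
  invFun z := ⟨twist deg y hy φ z.1 z.2, twist_ker deg y hy φ z.1 z.2⟩
  left_inv ψ := by
    apply Subtype.ext
    apply ext_ker deg y hy
    · intro u hu
      rw [twist_ker deg y hy φ _ _ u hu, ψ.2 u hu]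
    · rw [twist_y]; group
  right_inv z := by
    apply Subtype.ext
    show (φ y)⁻¹ * twist deg y hy φ z.1 z.2 y = z.1
    rw [twist_y]; group

end twist

section count

/-- conjugating a homomorphism -/
def cj {F Q : Type} [Group F] [Group Q] (q : Q) (φ : F →* Q) : F →* Q := (MulAut.conj q).toMonoidHom.comp φ

lemma cj_apply {F Q : Type} [Group F] [Group Q] (q : Q) (φ : F →* Q) (v : F) :
    cj q φ v = q * φ v * q⁻¹ := rfl

variable {F Q : Type} [Group F] [Group Q] [Finite Q] [Finite (F →* Q)]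
  (deg : F →* Multiplicative ℤ) (y : F) (hy : deg y = Multiplicative.ofAdd 1)

/-- two homomorphisms are related when their restrictions to the kernel of `deg` are conjugate -/
def rel : Setoid (F →* Q) where
  r φ ψ := ∃ q : Q, ∀ u ∈ deg.ker, ψ u = q * φ u * q⁻¹
  iseqv := {
    refl := fun φ => ⟨1, by simp⟩
    symm := by
      rintro φ ψ ⟨q, h⟩
      exact ⟨q⁻¹, fun u hu => by rw [h u hu]; group⟩
    trans := by
      rintro φ ψ χ ⟨q, h⟩ ⟨q', h'⟩
      exact ⟨q' * q, fun u hu => by rw [h' u hu, h u hu]; group⟩ }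

/-- the centralizer of the image of the kernel -/
def cent (φ : F →* Q) : Subgroup Q where
  carrier := {z | ∀ u ∈ deg.ker, z * φ u = φ u * z}
  one_mem' := by simp
  mul_mem' := by
    intro a b ha hb u hu
    rw [mul_assoc, hb u hu, ← mul_assoc, ha u hu, mul_assoc]
  inv_mem' := by
    intro a ha u hu
    have := ha u hu
    rw [inv_mul_eq_iff_eq_mul, ← mul_assoc, this]; group

omit [Finite Q] [Finite (F →* Q)] in
include hy in
lemma card_fibre (φ : F →* Q) (q : Q) :
    Nat.card {ψ : F →* Q // ∀ u ∈ deg.ker, ψ u = q * φ u * q⁻¹} = Nat.card (cent deg φ) := by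
  have e1 : {ψ : F →* Q // ∀ u ∈ deg.ker, ψ u = q * φ u * q⁻¹} ≃
      {ψ : F →* Q // ∀ u ∈ deg.ker, ψ u = φ u} :=
    { toFun := fun ψ => ⟨cj q⁻¹ ψ.1, fun u hu => by rw [cj_apply, ψ.2 u hu]; group⟩
      invFun := fun ψ => ⟨cj q ψ.1, fun u hu => by rw [cj_apply, ψ.2 u hu]⟩
      left_inv := fun ψ => by
        apply Subtype.ext; ext v; simp only [cj_apply]; group
      right_inv := fun ψ => by
        apply Subtype.ext; ext v; simp only [cj_apply]; group }
  exact Nat.card_congr (e1.trans (fibreEquiv deg y hy φ))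

include hy in
/-- each class of `rel` has exactly `|Q|` elements -/
lemma card_class (φ : F →* Q) :
    Nat.card {ψ : F →* Q // (rel deg).r φ ψ} = Nat.card Q := by
  -- count pairs `(q, ψ)` with `ψ = q φ q⁻¹` on the kernel in two ways
  let E := {p : Q × (F →* Q) // ∀ u ∈ deg.ker, p.2 u = p.1 * φ u * p.1⁻¹}
  have h1 : Nat.card E = Nat.card Q * Nat.card (cent deg φ) := by
    let e : E ≃ Σ q : Q, {ψ : F →* Q // ∀ u ∈ deg.ker, ψ u = q * φ u * q⁻¹} :=
      { toFun := fun p => ⟨p.1.1, p.1.2, p.2⟩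
        invFun := fun p => ⟨(p.1, p.2.1), p.2.2⟩
        left_inv := fun _ => rfl
        right_inv := fun _ => rfl }
    have := Fintype.ofFinite Q
    rw [Nat.card_congr e, Nat.card_sigma]
    simp only [card_fibre deg y hy φ]
    rw [Finset.sum_const, Finset.card_univ, smul_eq_mul, ← Nat.card_eq_fintype_card]
  have h2 : Nat.card E = Nat.card {ψ : F →* Q // (rel deg).r φ ψ} * Nat.card (cent deg φ) := by
    let e : E ≃ Σ ψ : {ψ : F →* Q // (rel deg).r φ ψ},
        {q : Q // ∀ u ∈ deg.ker, ψ.1 u = q * φ u * q⁻¹} :=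
      { toFun := fun p => ⟨⟨p.1.2, p.1.1, p.2⟩, p.1.1, p.2⟩
        invFun := fun p => ⟨(p.2.1, p.1.1), p.2.2⟩
        left_inv := fun _ => rfl
        right_inv := fun _ => rfl }
    have := Fintype.ofFinite {ψ : F →* Q // (rel deg).r φ ψ}
    have h3 : ∀ ψ : {ψ : F →* Q // (rel deg).r φ ψ},
        Nat.card {q : Q // ∀ u ∈ deg.ker, ψ.1 u = q * φ u * q⁻¹} = Nat.card (cent deg φ) := by
      rintro ⟨ψ, q₀, h₀⟩
      refine Nat.card_congr
        { toFun := fun q => ⟨q₀⁻¹ * q.1, fun u hu => ?_⟩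
          invFun := fun z => ⟨q₀ * z.1, fun u hu => ?_⟩
          left_inv := fun q => by apply Subtype.ext; simp
          right_inv := fun z => by apply Subtype.ext; simp }
      · have a := q.2 u hu
        have b := h₀ u hu
        have c : q.1 * φ u * q.1⁻¹ = q₀ * φ u * q₀⁻¹ := by rw [← a, ← b]
        have d : q.1 * φ u = q₀ * φ u * q₀⁻¹ * q.1 := by rw [← c]; group
        rw [mul_assoc, d]; group
      · have a := z.2 u hu
        have b := h₀ u hu
        show ψ u = q₀ * z.1 * φ u * (q₀ * z.1)⁻¹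
        rw [b, mul_assoc q₀ z.1, a]; group
    rw [Nat.card_congr e, Nat.card_sigma]
    simp only [h3]
    rw [Finset.sum_const, Finset.card_univ, smul_eq_mul, ← Nat.card_eq_fintype_card]
  have h3 : 0 < Nat.card (cent deg φ) := Nat.card_pos
  exact Nat.eq_of_mul_eq_mul_right h3 (h2.symm.trans h1)

include hy in
/-- the sum of an algebraic-integer-valued class function over all homomorphisms is `|Q|` times
an algebraic integer -/
theorem sum_hom (f : Q → ℂ) (hf : ∀ q x : Q, f (q * x * q⁻¹) = f x)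
    (hint : ∀ x, IsIntegral ℤ (f x)) (w : F) (hw : w ∈ deg.ker) [Fintype (F →* Q)] :
    ∃ s : ℂ, IsIntegral ℤ s ∧ ∑ φ : F →* Q, f (φ w) = (Nat.card Q : ℂ) * s := by
  have hfin : Finite (Quotient (rel (Q := Q) deg)) := Quotient.finite _
  let _ : Fintype (Quotient (rel (Q := Q) deg)) := Fintype.ofFinite _
  refine ⟨∑ c : Quotient (rel (Q := Q) deg), f (c.out w), ?_, ?_⟩
  · exact IsIntegral.sum _ fun c _ => hint _
  · rw [← Finset.sum_fiberwise (s := Finset.univ) (g := fun φ => (⟦φ⟧ : Quotient (rel (Q := Q) deg))),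
      Finset.mul_sum]
    refine Finset.sum_congr rfl fun c _ => ?_
    have h1 : ∀ φ ∈ Finset.univ.filter (fun φ : F →* Q => (⟦φ⟧ : Quotient (rel (Q := Q) deg)) = c),
        f (φ w) = f (c.out w) := by
      intro φ hφ
      rw [Finset.mem_filter] at hφ
      have h2 : (⟦c.out⟧ : Quotient (rel (Q := Q) deg)) = ⟦φ⟧ := by
        rw [Quotient.out_eq]; exact hφ.2.symm
      obtain ⟨q, hq⟩ := Quotient.exact h2
      rw [hq w hw, hf]
    rw [Finset.sum_congr rfl h1, Finset.sum_const, nsmul_eq_mul]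
    congr 1
    rw [← card_class deg y hy c.out, Nat.card_eq_fintype_card, Fintype.card_subtype]
    congr 2
    ext φ
    rw [Finset.mem_filter, Finset.mem_filter]
    constructor
    · rintro ⟨_, h⟩
      refine ⟨Finset.mem_univ _, ?_⟩
      apply Quotient.exact
      rw [Quotient.out_eq]; exact h.symm
    · rintro ⟨_, h⟩
      refine ⟨Finset.mem_univ _, ?_⟩
      rw [← Quotient.out_eq c]
      exact (Quotient.sound h).symm

end count

/-! ### a degree homomorphism killing a given word -/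

lemma bezout (a b : ℤ) : ∃ α β p q : ℤ, α * a + β * b = 0 ∧ α * p + β * q = 1 := by
  by_cases h : a = 0 ∧ b = 0
  · exact ⟨1, 0, 1, 0, by simp [h.1], by simp⟩
  · have hg : (Int.gcd a b : ℤ) ≠ 0 := by
      intro h0
      rw [Int.natCast_eq_zero, Int.gcd_eq_zero_iff] at h0
      exact h h0
    have ha : (Int.gcd a b : ℤ) * (a / Int.gcd a b) = a :=
      Int.mul_ediv_cancel' (Int.gcd_dvd_left ..)
    have hb : (Int.gcd a b : ℤ) * (b / Int.gcd a b) = b :=
      Int.mul_ediv_cancel' (Int.gcd_dvd_right ..)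
    have hbz := Int.gcd_eq_gcd_ab a b
    refine ⟨b / Int.gcd a b, -(a / Int.gcd a b), Int.gcdB a b, -Int.gcdA a b, ?_, ?_⟩
    · set g : ℤ := (Int.gcd a b : ℤ)
      set a' := a / g
      set b' := b / g
      rw [← ha, ← hb]; ring
    · apply mul_left_cancel₀ hg
      set g : ℤ := (Int.gcd a b : ℤ)
      set a' := a / g
      set b' := b / g
      have : g * (b' * Int.gcdB a b + -a' * -Int.gcdA a b) =
          (g * a') * Int.gcdA a b + (g * b') * Int.gcdB a b := by ring
      rw [this, ha, hb, ← hbz, mul_one]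

/-- exponent-sum homomorphism of the free group in the `i`-th variable -/
def expo {r : ℕ} (i : Fin r) : FreeGroup (Fin r) →* Multiplicative ℤ :=
  FreeGroup.lift (fun j => if j = i then Multiplicative.ofAdd 1 else 1)

lemma exists_deg {r : ℕ} (hr : 2 ≤ r) (w : FreeGroup (Fin r)) :
    ∃ (deg : FreeGroup (Fin r) →* Multiplicative ℤ) (y : FreeGroup (Fin r)),
      deg y = Multiplicative.ofAdd 1 ∧ w ∈ deg.ker := by
  let i₀ : Fin r := ⟨0, by omega⟩
  let i₁ : Fin r := ⟨1, by omega⟩
  have h01 : i₀ ≠ i₁ := by simp [i₀, i₁, Fin.ext_iff]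
  obtain ⟨α, β, p, q, h1, h2⟩ := bezout (Multiplicative.toAdd (expo i₀ w))
    (Multiplicative.toAdd (expo i₁ w))
  let deg : FreeGroup (Fin r) →* Multiplicative ℤ :=
    (zpowGroupHom α).comp (expo i₀) * (zpowGroupHom β).comp (expo i₁)
  have hdeg : ∀ v, Multiplicative.toAdd (deg v) =
      α * Multiplicative.toAdd (expo i₀ v) + β * Multiplicative.toAdd (expo i₁ v) := by
    intro v
    simp [deg, MonoidHom.mul_apply, toAdd_mul, toAdd_zpow]
  refine ⟨deg, FreeGroup.of i₀ ^ p * FreeGroup.of i₁ ^ q, ?_, ?_⟩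
  · apply Multiplicative.toAdd.injective
    rw [hdeg]
    have e0 : expo i₀ (FreeGroup.of i₀ ^ p * FreeGroup.of i₁ ^ q) = Multiplicative.ofAdd p := by
      rw [map_mul, map_zpow, map_zpow]
      simp [expo, h01.symm, ← ofAdd_zsmul]
    have e1 : expo i₁ (FreeGroup.of i₀ ^ p * FreeGroup.of i₁ ^ q) = Multiplicative.ofAdd q := by
      rw [map_mul, map_zpow, map_zpow]
      simp [expo, h01, ← ofAdd_zsmul]
    rw [e0, e1]
    simpa using h2
  · rw [MonoidHom.mem_ker]
    apply Multiplicative.toAdd.injective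
    rw [hdeg]
    simpa using h1

/-- the main integrality statement for words in at least two variables -/
theorem sum_word {Q : Type} [Group Q] [Fintype Q] {r : ℕ} (hr : 2 ≤ r) (w : FreeGroup (Fin r))
    (f : Q → ℂ) (hf : ∀ q x : Q, f (q * x * q⁻¹) = f x) (hint : ∀ x, IsIntegral ℤ (f x)) :
    ∃ s : ℂ, IsIntegral ℤ s ∧
      ∑ x : Fin r → Q, f (FreeGroup.lift x w) = (Nat.card Q : ℂ) * s := by
  obtain ⟨deg, y, hy, hw⟩ := exists_deg hr w
  let _ : Fintype (FreeGroup (Fin r) →* Q) := Fintype.ofEquiv (Fin r → Q) FreeGroup.lift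
  obtain ⟨s, hs, h⟩ := sum_hom deg y hy f hf hint w hw
  refine ⟨s, hs, ?_⟩
  rw [← h]
  exact Fintype.sum_equiv FreeGroup.lift _ _ fun x => rfl

end Pool.Agent.R677.WordInt
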