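import Pool.Agent.R677.AbsModel
import Pool.Agent.R677.WordInt
import Pool.Agent.R677.CharInt

/-!
# Word maps on the group of order 729
-/

set_option autoImplicit false

open scoped BigOperators Classical
open CategoryTheory

noncomputable section

namespace Pool.Agent.R677.AbsWord

open Pool.Agent.R677 Pool.Agent.R677.AbsModel Pool.Agent.R677.WordInt

/-! ### generalities on words -/

lemma lift_mul_central {G : Type} [Group G] {r : ℕ} (x z : Fin r → G)
    (hz : ∀ i, z i ∈ Subgroup.center G) (w : FreeGroup (Fin r)) :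
    FreeGroup.lift (x * z) w = FreeGroup.lift x w * FreeGroup.lift z w ∧
      FreeGroup.lift z w ∈ Subgroup.center G := by
  induction w using FreeGroup.induction_on with
  | C1 => simp
  | of i => simpa using hz i
  | inv_of i h =>
    have h2 := (Subgroup.center G).inv_mem (hz i)
    have h3 := Subgroup.mem_center_iff.1 h2 (x i)⁻¹
    simp only [map_inv, FreeGroup.lift_apply_of, Pi.mul_apply, mul_inv_rev]
    exact ⟨h3.symm, h2⟩
  | mul u v hu hv =>
    refine ⟨?_, ?_⟩
    · have h3 := Subgroup.mem_center_iff.1 hu.2 (FreeGroup.lift x v)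
      calc FreeGroup.lift (x * z) (u * v)
          = FreeGroup.lift (x * z) u * FreeGroup.lift (x * z) v := map_mul _ _ _
        _ = FreeGroup.lift x u * (FreeGroup.lift z u * FreeGroup.lift x v) *
            FreeGroup.lift z v := by rw [hu.1, hv.1]; simp only [mul_assoc]
        _ = FreeGroup.lift x u * (FreeGroup.lift x v * FreeGroup.lift z u) *
            FreeGroup.lift z v := by rw [h3]
        _ = FreeGroup.lift x u * FreeGroup.lift x v *
            (FreeGroup.lift z u * FreeGroup.lift z v) := by simp only [mul_assoc]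
        _ = _ := by rw [← map_mul, ← map_mul]
    · rw [map_mul]
      exact (Subgroup.center G).mul_mem hu.2 hv.2

lemma lift_mulSingle {G : Type} [Group G] {r : ℕ} (i : Fin r) (z : G) (w : FreeGroup (Fin r)) :
    FreeGroup.lift (Pi.mulSingle i z) w = z ^ (Multiplicative.toAdd (expo i w)) := by
  have h : FreeGroup.lift (Pi.mulSingle i z) = (zpowersHom G z).comp (expo i) := by
    ext j
    simp only [FreeGroup.lift_apply_of, MonoidHom.comp_apply, expo]
    by_cases hj : j = i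
    · subst hj; simp
    · simp [hj]
  rw [h]; rfl

lemma hom_lift {G A : Type} [Group G] [CommGroup A] (ρ : G →* A) {r : ℕ} (x : Fin r → G)
    (w : FreeGroup (Fin r)) :
    ρ (FreeGroup.lift x w) = ∏ i, ρ (x i) ^ (Multiplicative.toAdd (expo i w)) := by
  have h : ρ.comp (FreeGroup.lift x) = ∏ i, (zpowersHom A (ρ (x i))).comp (expo i) := by
    ext j
    simp only [FreeGroup.lift_apply_of, MonoidHom.comp_apply, MonoidHom.finsetProd_apply]
    rw [Finset.prod_eq_single j]
    · simp [expo]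
    · intro b _ hb
      simp [expo, hb.symm]
    · simp
  have h2 := DFunLike.congr_fun h w
  simp only [MonoidHom.comp_apply, MonoidHom.finsetProd_apply] at h2
  exact h2

lemma eq_of_pow (A : Type) [Group A] (a : A) (h3 : a ^ 3 = 1) (n : ℤ) (hn : ¬ (3 : ℤ) ∣ n)
    (h : a ^ n = 1) : a = 1 := by
  have hc : IsCoprime (3 : ℤ) n := by
    rw [Int.prime_three.coprime_iff_not_dvd]
    exact hn
  obtain ⟨u, v, huv⟩ := hc
  have h3' : a ^ (3 : ℤ) = 1 := by exact_mod_cast h3
  calc a = a ^ (u * 3 + v * n) := by rw [huv, zpow_one]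
    _ = 1 := by rw [zpow_add, mul_comm u, mul_comm v, zpow_mul, zpow_mul, h3', h]; simp

lemma cube_one (t : Multiplicative (ZMod 3)) : t ^ 3 = 1 := by
  revert t
  have : ∀ t : ZMod 3, 3 • t = 0 := by decide
  intro t
  exact Multiplicative.toAdd.injective (this (Multiplicative.toAdd t))

lemma mem_center {z : Gp} (hz : Zr z) : z ∈ Subgroup.center Gp := by
  rw [Subgroup.mem_center_iff]
  intro g
  exact (Zr_comm g z hz).symm

/-! ### words with an exponent sum coprime to three -/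

lemma rho_eq {r : ℕ} (ρ : Gp →* Multiplicative (ZMod 3)) (x : Fin r → Gp) (i : Fin r)
    (w : FreeGroup (Fin r)) (hi : ¬ (3 : ℤ) ∣ Multiplicative.toAdd (expo i w)) (g g' : Gp)
    (h : FreeGroup.lift (Function.update x i g) w = FreeGroup.lift (Function.update x i g') w) :
    ρ (g⁻¹ * g') = 1 := by
  have h1 := congrArg ρ h
  rw [hom_lift, hom_lift, ← Finset.mul_prod_erase _ _ (Finset.mem_univ i),
    ← Finset.mul_prod_erase _ _ (Finset.mem_univ i)] at h1
  have h2 : ∏ j ∈ Finset.univ.erase i,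
      ρ (Function.update x i g j) ^ (Multiplicative.toAdd (expo j w)) =
      ∏ j ∈ Finset.univ.erase i,
      ρ (Function.update x i g' j) ^ (Multiplicative.toAdd (expo j w)) := by
    refine Finset.prod_congr rfl fun j hj => ?_
    have hji : j ≠ i := (Finset.mem_erase.1 hj).1
    rw [Function.update_of_ne hji, Function.update_of_ne hji]
  rw [h2] at h1
  have h3 := mul_right_cancel h1
  rw [Function.update_self, Function.update_self] at h3
  apply eq_of_pow _ _ (cube_one _) _ hi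
  rw [map_mul, map_inv, mul_zpow, inv_zpow, h3, inv_mul_cancel]

lemma inj_coord {r : ℕ} (x : Fin r → Gp) (i : Fin r) (w : FreeGroup (Fin r))
    (hi : ¬ (3 : ℤ) ∣ Multiplicative.toAdd (expo i w)) :
    Function.Injective fun g : Gp => FreeGroup.lift (Function.update x i g) w := by
  intro g g' h
  simp only at h
  set z := g⁻¹ * g' with hz
  have hZ : Zr z := Zr_of_rho z (rho_eq ρa x i w hi g g' h) (rho_eq ρb x i w hi g g' h)
    (rho_eq ρc x i w hi g g' h)
  have hc : ∀ j, (Pi.mulSingle i z : Fin r → Gp) j ∈ Subgroup.center Gp := by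
    intro j
    by_cases hj : j = i
    · subst hj; rw [Pi.mulSingle_eq_same]; exact mem_center hZ
    · rw [Pi.mulSingle_eq_of_ne hj]; exact Subgroup.one_mem _
  have hu : Function.update x i g' = Function.update x i g * Pi.mulSingle i z := by
    ext1 j
    by_cases hj : j = i
    · subst hj
      rw [Function.update_self, Pi.mul_apply, Function.update_self, Pi.mulSingle_eq_same, hz,
        mul_inv_cancel_left]
    · rw [Function.update_of_ne hj, Pi.mul_apply, Function.update_of_ne hj,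
        Pi.mulSingle_eq_of_ne hj, mul_one]
  rw [hu, (lift_mul_central _ _ hc w).1, lift_mulSingle] at h
  have h2 : z ^ (Multiplicative.toAdd (expo i w)) = 1 := by
    have := h.symm
    rwa [mul_eq_left] at this
  have h3 := eq_of_pow _ z (Zr_cube z hZ) _ hi h2
  have h4 : g' = g * z := by rw [hz]; group
  rw [h4, h3, mul_one]

lemma sum_const {r : ℕ} (i : Fin r) (w : FreeGroup (Fin r))
    (hi : ¬ (3 : ℤ) ∣ Multiplicative.toAdd (expo i w)) (F : Gp → ℂ) :
    ∑ x : Fin r → Gp, F (FreeGroup.lift x w) =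
      (Fintype.card ({j : Fin r // j ≠ i} → Gp) : ℂ) * ∑ g : Gp, F g := by
  rw [← (Equiv.funSplitAt i Gp).symm.sum_comp, Fintype.sum_prod_type_right]
  have h : ∀ o : {j : Fin r // j ≠ i} → Gp,
      ∑ g : Gp, F (FreeGroup.lift ((Equiv.funSplitAt i Gp).symm (g, o)) w) = ∑ g : Gp, F g := by
    intro o
    have h1 : ∀ g, (Equiv.funSplitAt i Gp).symm (g, o) =
        Function.update ((Equiv.funSplitAt i Gp).symm (1, o)) i g := by
      intro g
      ext1 j
      by_cases hj : j = i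
      · subst hj
        rw [Function.update_self]
        show (if h : j = j then _ else _) = _
        rw [dif_pos rfl]
      · rw [Function.update_of_ne hj]
        show (if h : j = i then _ else _) = (if h : j = i then _ else _)
        rw [dif_neg hj, dif_neg hj]
    rw [Finset.sum_congr rfl fun g _ => by rw [h1 g]]
    have hb := Finite.injective_iff_bijective.1
      (inj_coord ((Equiv.funSplitAt i Gp).symm (1, o)) i w hi)
    exact hb.sum_comp F
  rw [Finset.sum_congr rfl fun o _ => h o, Finset.sum_const, nsmul_eq_mul, Finset.card_univ]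

/-! ### transformations -/

/-- a three by three matrix over `ZMod 9`, given by its entries -/
abbrev Mt := (ZMod 9 × ZMod 9 × ZMod 9) × (ZMod 9 × ZMod 9 × ZMod 9) × (ZMod 9 × ZMod 9 × ZMod 9)

/-- the scalar product of a row with a column -/
def dt (p q : ZMod 9 × ZMod 9 × ZMod 9) : ZMod 9 := p.1 * q.1 + p.2.1 * q.2.1 + p.2.2 * q.2.2

/-- columns of a matrix -/
def cl₁ (D : Mt) : ZMod 9 × ZMod 9 × ZMod 9 := (D.1.1, D.2.1.1, D.2.2.1)
/-- columns of a matrix -/
def cl₂ (D : Mt) : ZMod 9 × ZMod 9 × ZMod 9 := (D.1.2.1, D.2.1.2.1, D.2.2.2.1)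
/-- columns of a matrix -/
def cl₃ (D : Mt) : ZMod 9 × ZMod 9 × ZMod 9 := (D.1.2.2, D.2.1.2.2, D.2.2.2.2)

/-- the reduction of a triple -/
def rd3 (p : ZMod 9 × ZMod 9 × ZMod 9) : ZMod 3 × ZMod 3 × ZMod 3 :=
  (red p.1, red p.2.1, red p.2.2)

/-- the scalar product modulo three -/
def dot (p q : ZMod 3 × ZMod 3 × ZMod 3) : ZMod 3 := p.1 * q.1 + p.2.1 * q.2.1 + p.2.2 * q.2.2

/-- the matrix is an involution -/
def Inv2 (D : Mt) : Prop :=
  dt D.1 (cl₁ D) = 1 ∧ dt D.1 (cl₂ D) = 0 ∧ dt D.1 (cl₃ D) = 0 ∧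
  dt D.2.1 (cl₁ D) = 0 ∧ dt D.2.1 (cl₂ D) = 1 ∧ dt D.2.1 (cl₃ D) = 0 ∧
  dt D.2.2 (cl₁ D) = 0 ∧ dt D.2.2 (cl₂ D) = 0 ∧ dt D.2.2 (cl₃ D) = 1

/-- the matrix acts on the functional `l` by minus one -/
def Neg1 (D : Mt) (l : ZMod 3 × ZMod 3 × ZMod 3) : Prop :=
  dot l (rd3 (cl₁ D)) = -l.1 ∧ dot l (rd3 (cl₂ D)) = -l.2.1 ∧ dot l (rd3 (cl₃ D)) = -l.2.2

/-- the matrix acts on the alternating form attached to `l` by minus one -/
def Neg2 (D : Mt) (l : ZMod 3 × ZMod 3 × ZMod 3) : Prop :=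
  dot l (cr (rd3 (cl₁ D)) (rd3 (cl₂ D))) = -l.1 ∧
  dot l (cr (rd3 (cl₂ D)) (rd3 (cl₃ D))) = -l.2.1 ∧
  dot l (cr (rd3 (cl₃ D)) (rd3 (cl₁ D))) = -l.2.2

instance (D : Mt) : Decidable (Inv2 D) := by unfold Inv2; infer_instance
instance (D : Mt) (l : ZMod 3 × ZMod 3 × ZMod 3) : Decidable (Neg1 D l) := by
  unfold Neg1; infer_instance
instance (D : Mt) (l : ZMod 3 × ZMod 3 × ZMod 3) : Decidable (Neg2 D l) := by
  unfold Neg2; infer_instance

/-- a list of matrices -/
def lst : List Mt :=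
  [((0, 0, 1), (0, 8, 0), (1, 0, 0)),
   ((0, 0, 1), (1, 8, 1), (1, 0, 0)),
   ((0, 0, 1), (8, 8, 8), (1, 0, 0)),
   ((0, 0, 8), (0, 8, 0), (8, 0, 0)),
   ((0, 0, 8), (1, 8, 8), (8, 0, 0)),
   ((0, 0, 8), (8, 8, 1), (8, 0, 0)),
   ((0, 1, 0), (1, 0, 0), (1, 1, 8)),
   ((0, 1, 1), (0, 8, 0), (1, 1, 0)),
   ((0, 1, 8), (0, 8, 0), (8, 8, 0)),
   ((0, 8, 0), (8, 0, 0), (1, 8, 8)),
   ((1, 0, 0), (0, 1, 0), (0, 0, 8)),
   ((1, 0, 0), (0, 8, 0), (0, 0, 1)),
   ((8, 0, 0), (0, 1, 0), (0, 0, 1))]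

lemma lst_inv : ∀ D ∈ lst, Inv2 D := by
  intro D hD
  simp only [lst, List.mem_cons, List.not_mem_nil, or_false] at hD
  rcases hD with h | h | h | h | h | h | h | h | h | h | h | h | h <;> subst h <;>
    (refine ⟨?_, ?_, ?_, ?_, ?_, ?_, ?_, ?_, ?_⟩ <;> decide)

lemma lst_neg : ∀ l : ZMod 3 × ZMod 3 × ZMod 3, ∃ D ∈ lst, Neg1 D l ∧ Neg2 D l := by
  decide +kernel

/-- the linear transformation attached to a matrix -/
def δ (D : Mt) (x : Gp) : Gp :=
  ⟨dt D.1 (x.a, x.b, x.c), dt D.2.1 (x.a, x.b, x.c), dt D.2.2 (x.a, x.b, x.c)⟩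

lemma δ_δ (D : Mt) (h : Inv2 D) (x : Gp) : δ D (δ D x) = x := by
  obtain ⟨h1, h2, h3, h4, h5, h6, h7, h8, h9⟩ := h
  simp only [dt, cl₁, cl₂, cl₃] at h1 h2 h3 h4 h5 h6 h7 h8 h9
  ext
  · simp only [δ, dt]
    linear_combination x.a * h1 + x.b * h2 + x.c * h3
  · simp only [δ, dt]
    linear_combination x.a * h4 + x.b * h5 + x.c * h6
  · simp only [δ, dt]
    linear_combination x.a * h7 + x.b * h8 + x.c * h9

/-- the permutation attached to an involutive matrix -/
def δe (D : Mt) (h : Inv2 D) : Gp ≃ Gp where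
  toFun := δ D
  invFun := δ D
  left_inv := δ_δ D h
  right_inv := δ_δ D h

/-- the digits of a central element -/
def uu (x : Gp) : ZMod 3 × ZMod 3 × ZMod 3 := (dv x.a, dv x.b, dv x.c)

lemma uu_mul (x y : Gp) (hx : Zr x) (hy : Zr y) : uu (x * y) = uu x + uu y := by
  simp only [uu]
  rw [mul_a_Zr x y hy, mul_b_Zr x y hy, mul_c_Zr x y hy, dv_add _ hx.1 _ hy.1,
    dv_add _ hx.2.1 _ hy.2.1, dv_add _ hx.2.2 _ hy.2.2]
  rfl

lemma uu_inv (x : Gp) (hx : Zr x) : uu x⁻¹ = -uu x := by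
  simp only [uu]
  rw [inv_a, inv_b, inv_c, dv_neg _ hx.1, dv_neg _ hx.2.1, dv_neg _ hx.2.2]
  rfl

lemma δ_inv (D : Mt) (x : Gp) : δ D x⁻¹ = (δ D x)⁻¹ := by
  ext
  · simp only [δ, dt, inv_a, inv_b, inv_c]; ring
  · simp only [δ, dt, inv_a, inv_b, inv_c]; ring
  · simp only [δ, dt, inv_a, inv_b, inv_c]; ring

lemma δ_one (D : Mt) : δ D 1 = 1 := by
  ext
  · simp only [δ, dt, one_a, one_b, one_c]; ring
  · simp only [δ, dt, one_a, one_b, one_c]; ring
  · simp only [δ, dt, one_a, one_b, one_c]; ring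

lemma Zr_δ (D : Mt) (x : Gp) (hx : Zr x) : Zr (δ D x) := by
  refine ⟨?_, ?_, ?_⟩ <;> simp [δ, dt, hx.1, hx.2.1, hx.2.2]

lemma dot_δ (D : Mt) (l : ZMod 3 × ZMod 3 × ZMod 3) (h : Neg1 D l) (x : Gp) (hx : Zr x) :
    dot l (uu (δ D x)) = -dot l (uu x) := by
  obtain ⟨h1, h2, h3⟩ := h
  simp only [dot, rd3, cl₁, cl₂, cl₃] at h1 h2 h3
  have e : ∀ p : ZMod 9 × ZMod 9 × ZMod 9, dv (dt p (x.a, x.b, x.c)) =
      red p.1 * dv x.a + red p.2.1 * dv x.b + red p.2.2 * dv x.c := by
    intro p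
    simp only [dt]
    rw [dv_add _ (by rw [map_add, map_mul, map_mul, hx.1, hx.2.1]; ring) _
      (by rw [map_mul, hx.2.2]; ring), dv_add _ (by rw [map_mul, hx.1]; ring) _
      (by rw [map_mul, hx.2.1]; ring), dv_mul _ _ hx.1, dv_mul _ _ hx.2.1, dv_mul _ _ hx.2.2]
  simp only [uu, δ, e, dot]
  linear_combination dv x.a * h1 + dv x.b * h2 + dv x.c * h3

/-- the defect of a transformation from being a homomorphism -/
lemma δ_mul (D : Mt) (l : ZMod 3 × ZMod 3 × ZMod 3) (h : Neg1 D l) (h' : Neg2 D l) (x y : Gp) :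
    ∃ k : Gp, Zr k ∧ dot l (uu k) = 0 ∧ δ D x * δ D y = δ D (x * y) * k := by
  obtain ⟨h1, h2, h3⟩ := h
  obtain ⟨h4, h5, h6⟩ := h'
  simp only [dot, rd3, cl₁, cl₂, cl₃, cr] at h1 h2 h3 h4 h5 h6
  let m₁ := x.a * y.b - x.b * y.a
  let m₂ := x.b * y.c - x.c * y.b
  let m₃ := x.c * y.a - x.a * y.c
  let X := δ D x
  let Y := δ D y
  let k₁ := X.a * Y.b - X.b * Y.a - dt D.1 (m₁, m₂, m₃)
  let k₂ := X.b * Y.c - X.c * Y.b - dt D.2.1 (m₁, m₂, m₃)
  let k₃ := X.c * Y.a - X.a * Y.c - dt D.2.2 (m₁, m₂, m₃)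
  have hk : Zr ⟨6 * k₁, 6 * k₂, 6 * k₃⟩ := by
    refine ⟨?_, ?_, ?_⟩ <;> simp [map_mul, red_six]
  refine ⟨⟨6 * k₁, 6 * k₂, 6 * k₃⟩, hk, ?_, ?_⟩
  · simp only [uu, dv_six, dot]
    simp only [k₁, k₂, k₃, X, Y, δ, dt, m₁, m₂, m₃, map_sub, map_add, map_mul]
    linear_combination 2 * (red x.a * red y.b - red x.b * red y.a) * (h4 - h1) +
      2 * (red x.b * red y.c - red x.c * red y.b) * (h5 - h2) +
      2 * (red x.c * red y.a - red x.a * red y.c) * (h6 - h3)
  · ext
    · rw [mul_a_Zr _ _ hk, mul_a]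
      simp only [k₁, X, Y, δ, dt, m₁, m₂, m₃, mul_a, mul_b, mul_c]
      ring
    · rw [mul_b_Zr _ _ hk, mul_b]
      simp only [k₂, X, Y, δ, dt, m₁, m₂, m₃, mul_a, mul_b, mul_c]
      ring
    · rw [mul_c_Zr _ _ hk, mul_c]
      simp only [k₃, X, Y, δ, dt, m₁, m₂, m₃, mul_a, mul_b, mul_c]
      ring

lemma dot_add (l p q : ZMod 3 × ZMod 3 × ZMod 3) : dot l (p + q) = dot l p + dot l q := by
  simp only [dot, Prod.fst_add, Prod.snd_add]; ring

lemma dot_neg (l p : ZMod 3 × ZMod 3 × ZMod 3) : dot l (-p) = -dot l p := by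
  simp only [dot, Prod.fst_neg, Prod.snd_neg]; ring

lemma lift_δ (D : Mt) (l : ZMod 3 × ZMod 3 × ZMod 3) (h : Neg1 D l) (h' : Neg2 D l) {r : ℕ}
    (x : Fin r → Gp) (w : FreeGroup (Fin r)) :
    ∃ k : Gp, Zr k ∧ dot l (uu k) = 0 ∧
      FreeGroup.lift (fun i => δ D (x i)) w = δ D (FreeGroup.lift x w) * k := by
  induction w using FreeGroup.induction_on with
  | C1 =>
    refine ⟨1, Zr_one, ?_, ?_⟩
    · simp [uu, one_a, one_b, one_c, dv, dot]
    · rw [map_one, map_one, δ_one, mul_one]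
  | of i =>
    refine ⟨1, Zr_one, ?_, ?_⟩
    · simp [uu, one_a, one_b, one_c, dv, dot]
    · simp
  | inv_of i _ =>
    refine ⟨1, Zr_one, ?_, ?_⟩
    · simp [uu, one_a, one_b, one_c, dv, dot]
    · simp [δ_inv]
  | mul u v hu hv =>
    obtain ⟨k₁, a₁, b₁, c₁⟩ := hu
    obtain ⟨k₂, a₂, b₂, c₂⟩ := hv
    obtain ⟨k₃, a₃, b₃, c₃⟩ := δ_mul D l h h' (FreeGroup.lift x u) (FreeGroup.lift x v)
    refine ⟨k₃ * (k₁ * k₂), Zr_mul _ _ a₃ (Zr_mul _ _ a₁ a₂), ?_, ?_⟩
    · rw [uu_mul _ _ a₃ (Zr_mul _ _ a₁ a₂), uu_mul _ _ a₁ a₂, dot_add, dot_add, b₁, b₂, b₃]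
      simp
    · rw [map_mul, map_mul, c₁, c₂, mul_assoc, ← mul_assoc k₁, Zr_comm _ k₁ a₁, ← mul_assoc,
        ← mul_assoc, c₃]
      simp only [mul_assoc]

lemma dot_lift (D : Mt) (l : ZMod 3 × ZMod 3 × ZMod 3) (h : Neg1 D l) (h' : Neg2 D l) {r : ℕ}
    (x : Fin r → Gp) (w : FreeGroup (Fin r)) (hw : Zr (FreeGroup.lift x w)) :
    dot l (uu (FreeGroup.lift (fun i => δ D (x i)) w)) = -dot l (uu (FreeGroup.lift x w)) := by
  obtain ⟨k, a, b, c⟩ := lift_δ D l h h' x w
  rw [c, uu_mul _ _ (Zr_δ D _ hw) a, dot_add, b, add_zero, dot_δ D l h _ hw]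

/-! ### the counting argument -/

lemma card_dot : ∀ c : ZMod 3 × ZMod 3 × ZMod 3,
    (Finset.univ.filter fun l : ZMod 3 × ZMod 3 × ZMod 3 => dot l c = 0).card =
      if c = 0 then 27 else 9 := by
  decide

lemma dot_sub (l p q : ZMod 3 × ZMod 3 × ZMod 3) : dot l (p - q) = dot l p - dot l q := by
  simp only [dot, Prod.fst_sub, Prod.snd_sub]; ring

lemma radon {X : Type} [Fintype X] (u : X → ZMod 3 × ZMod 3 × ZMod 3)
    (v : ZMod 3 × ZMod 3 × ZMod 3) :
    ∑ l : ZMod 3 × ZMod 3 × ZMod 3, (Finset.univ.filter fun x => dot l (u x) = dot l v).card =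
      9 * Fintype.card X + 18 * (Finset.univ.filter fun x => u x = v).card := by
  have h1 : ∀ l : ZMod 3 × ZMod 3 × ZMod 3,
      (Finset.univ.filter fun x => dot l (u x) = dot l v).card =
      ∑ x : X, if dot l (u x - v) = 0 then 1 else 0 := by
    intro l
    rw [Finset.card_filter]
    refine Finset.sum_congr rfl fun x _ => ?_
    rw [dot_sub]
    simp only [sub_eq_zero]
  rw [Finset.sum_congr rfl fun l _ => h1 l, Finset.sum_comm]
  have h2 : ∀ x : X, (∑ l : ZMod 3 × ZMod 3 × ZMod 3, if dot l (u x - v) = 0 then 1 else 0) =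
      9 + 18 * (if u x = v then 1 else 0) := by
    intro x
    rw [← Finset.card_filter, card_dot]
    simp only [sub_eq_zero]
    split_ifs <;> rfl
  rw [Finset.sum_congr rfl fun x _ => h2 x, Finset.sum_add_distrib, ← Finset.mul_sum,
    ← Finset.card_filter]
  simp [mul_comm]

lemma count_symm {X : Type} [Fintype X] (u : X → ZMod 3 × ZMod 3 × ZMod 3)
    (h : ∀ l, ∃ σ : X ≃ X, ∀ x, dot l (u (σ x)) = -dot l (u x)) (v : ZMod 3 × ZMod 3 × ZMod 3) :
    (Finset.univ.filter fun x => u x = v).card = (Finset.univ.filter fun x => u x = -v).card := by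
  have h1 := radon u v
  have h2 := radon u (-v)
  have h3 : ∀ l : ZMod 3 × ZMod 3 × ZMod 3,
      (Finset.univ.filter fun x => dot l (u x) = dot l v).card =
      (Finset.univ.filter fun x => dot l (u x) = dot l (-v)).card := by
    intro l
    obtain ⟨σ, hσ⟩ := h l
    refine Finset.card_bij (fun x _ => σ x) ?_ (fun _ _ _ _ e => σ.injective e) ?_
    · intro x hx
      rw [Finset.mem_filter] at hx ⊢
      exact ⟨Finset.mem_univ _, by rw [hσ, hx.2, dot_neg]⟩
    · intro y hy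
      rw [Finset.mem_filter] at hy
      refine ⟨σ.symm y, ?_, by simp⟩
      rw [Finset.mem_filter]
      refine ⟨Finset.mem_univ _, ?_⟩
      have := hσ (σ.symm y)
      rw [Equiv.apply_symm_apply, hy.2, dot_neg] at this
      exact (neg_injective this).symm
  rw [Finset.sum_congr rfl fun l _ => h3 l] at h1
  omega

lemma sum_symm {X : Type} [Fintype X] (u : X → ZMod 3 × ZMod 3 × ZMod 3)
    (h : ∀ l, ∃ σ : X ≃ X, ∀ x, dot l (u (σ x)) = -dot l (u x))
    (F : ZMod 3 × ZMod 3 × ZMod 3 → ℂ) : ∑ x, F (u x) = ∑ x, F (-u x) := by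
  have e : ∀ F' : ZMod 3 × ZMod 3 × ZMod 3 → ℂ, ∑ x, F' (u x) =
      ∑ v, ((Finset.univ.filter fun x => u x = v).card : ℂ) * F' v := by
    intro F'
    rw [← Finset.sum_fiberwise (s := Finset.univ) (g := u)]
    refine Finset.sum_congr rfl fun v _ => ?_
    have h1 : ∀ x ∈ Finset.univ.filter (fun x => u x = v), F' (u x) = F' v := by
      intro x hx
      rw [Finset.mem_filter] at hx
      rw [hx.2]
    rw [Finset.sum_congr rfl h1, Finset.sum_const, nsmul_eq_mul]
  rw [e F, e fun v => F (-v), ← Equiv.sum_comp (Equiv.neg (ZMod 3 × ZMod 3 × ZMod 3))]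
  refine Finset.sum_congr rfl fun v _ => ?_
  simp only [Equiv.neg_apply]
  rw [← count_symm u h v]

/-! ### integrality of the multiplicities -/

/-- the character values at an element of order dividing three and at its inverse add up to an
integer -/
lemma char_add_inv {G : Type} [Group G] (V : FDRep ℂ G) (g : G) (hg : g ^ 3 = 1) :
    ∃ n : ℤ, V.character g + V.character g⁻¹ = n := by
  have hT : (V.ρ g) ^ 3 = 1 := by rw [← map_pow, hg, map_one]
  set T : V →ₗ[ℂ] V := V.ρ g with hTdef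
  let P : V →ₗ[ℂ] V := (3 : ℂ)⁻¹ • (1 + T + T ^ 2)
  have hP : P * P = P := by
    simp only [P]
    rw [smul_mul_smul_comm]
    have h1 : (1 + T + T ^ 2) * (1 + T + T ^ 2) =
        (1 + T + T ^ 2) + (1 + T + T ^ 2) + (1 + T + T ^ 2) := by
      have h2 : (1 + T + T ^ 2) * (1 + T + T ^ 2) =
          (1 + T + T ^ 2) + (T + T ^ 2 + T ^ 3) + (T ^ 2 + T ^ 3 + T * T ^ 3) := by
        noncomm_ring
      rw [h2, hT, mul_one]
      abel
    rw [h1]
    module
  have hP' : IsIdempotentElem P := hP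
  have h1 := (LinearMap.IsIdempotentElem.isProj_range P hP').trace
  have h2 : LinearMap.trace ℂ V P =
      (3 : ℂ)⁻¹ * (V.character 1 + V.character g + V.character g⁻¹) := by
    have h3 : g⁻¹ = g ^ 2 := by
      rw [inv_eq_iff_mul_eq_one, ← pow_succ']; exact hg
    rw [h3]
    simp only [P, map_smul, map_add, smul_eq_mul, FDRep.character, map_one, map_pow]
    rfl
  rw [h1, FDRep.char_one] at h2
  refine ⟨3 * (Module.finrank ℂ (LinearMap.range P) : ℤ) - Module.finrank ℂ V, ?_⟩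
  push_cast
  linear_combination -3 * h2

lemma average (G : Type) [Group G] [Fintype G] (V : FDRep ℂ G) :
    ∃ n : ℤ, (Nat.card G : ℂ)⁻¹ * ∑ g : G, star (V.character g) = n := by
  have hN : (Nat.card G : ℂ) ≠ 0 := by
    have : 0 < Nat.card G := Nat.card_pos
    exact_mod_cast this.ne'
  have : Invertible (Nat.card G : ℂ) := invertibleOfNonzero hN
  refine ⟨Module.finrank ℂ (Representation.invariants V.ρ), ?_⟩
  have h := congrArg star (FDRep.average_char_eq_finrank_invariants V)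
  rw [star_mul', star_inv₀, star_sum] at h
  simpa using h

lemma Zr_lift {r : ℕ} (w : FreeGroup (Fin r))
    (hw : ∀ i, (3 : ℤ) ∣ Multiplicative.toAdd (expo i w)) (x : Fin r → Gp) :
    Zr (FreeGroup.lift x w) := by
  have h : ∀ ρ : Gp →* Multiplicative (ZMod 3), ρ (FreeGroup.lift x w) = 1 := by
    intro ρ
    rw [hom_lift]
    refine Finset.prod_eq_one fun i _ => ?_
    obtain ⟨k, hk⟩ := hw i
    rw [hk, zpow_mul]
    have : (ρ (x i)) ^ (3 : ℤ) = 1 := by exact_mod_cast cube_one (ρ (x i))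
    rw [this, one_zpow]
  exact Zr_of_rho _ (h _) (h _) (h _)

/-- the power map with exponent `3 * k` -/
def pw (k : ℤ) : Gp →* Gp where
  toFun x := x ^ (3 * k)
  map_one' := one_zpow _
  map_mul' x y := by
    rw [zpow_eq, zpow_eq, zpow_eq]
    ext
    · simp only [mul_a]
      push_cast
      linear_combination (2 * k * (x.a * y.b - x.b * y.a) -
        6 * k ^ 2 * (x.a * y.b - x.b * y.a)) * nine
    · simp only [mul_b]
      push_cast
      linear_combination (2 * k * (x.b * y.c - x.c * y.b) -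
        6 * k ^ 2 * (x.b * y.c - x.c * y.b)) * nine
    · simp only [mul_c]
      push_cast
      linear_combination (2 * k * (x.c * y.a - x.a * y.c) -
        6 * k ^ 2 * (x.c * y.a - x.a * y.c)) * nine

/-- the inverse of digits: a central element is determined by its digits -/
def emb (v : ZMod 3 × ZMod 3 × ZMod 3) : Gp := ⟨em v.1, em v.2.1, em v.2.2⟩

lemma emb_uu (z : Gp) (hz : Zr z) : emb (uu z) = z := by
  ext
  · exact em_dv _ hz.1
  · exact em_dv _ hz.2.1
  · exact em_dv _ hz.2.2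

lemma emb_neg (v : ZMod 3 × ZMod 3 × ZMod 3) : emb (-v) = (emb v)⁻¹ := by
  ext
  · exact em_neg _
  · exact em_neg _
  · exact em_neg _

lemma sum_inv {r : ℕ} (w : FreeGroup (Fin r))
    (hw : ∀ i, (3 : ℤ) ∣ Multiplicative.toAdd (expo i w)) (F : Gp → ℂ) :
    ∑ x : Fin r → Gp, F (FreeGroup.lift x w) = ∑ x : Fin r → Gp, F (FreeGroup.lift x w)⁻¹ := by
  have h := sum_symm (fun x : Fin r → Gp => uu (FreeGroup.lift x w)) (fun l => by
    obtain ⟨D, hD, h1, h2⟩ := lst_neg l
    refine ⟨Equiv.piCongrRight fun _ => δe D (lst_inv D hD), fun x => ?_⟩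
    exact dot_lift D l h1 h2 x w (Zr_lift w hw x)) (fun v => F (emb v))
  have e1 : ∀ x : Fin r → Gp, F (FreeGroup.lift x w) = F (emb (uu (FreeGroup.lift x w))) :=
    fun x => by rw [emb_uu _ (Zr_lift w hw x)]
  have e2 : ∀ x : Fin r → Gp, F (FreeGroup.lift x w)⁻¹ = F (emb (-uu (FreeGroup.lift x w))) :=
    fun x => by rw [emb_neg, emb_uu _ (Zr_lift w hw x)]
  rw [Finset.sum_congr rfl fun x _ => e1 x, Finset.sum_congr rfl fun x _ => e2 x]
  exact h

/-- the multiplicities of all word maps on `Gp` are integers -/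
theorem mult_int {r : ℕ} (hr : 1 ≤ r) (w : FreeGroup (Fin r)) (V : FDRep ℂ Gp) :
    ∃ m : ℤ, (Nat.card Gp : ℂ)⁻¹ *
      ∑ x : Fin r → Gp, star (V.character (FreeGroup.lift x w)) = m := by
  by_cases hA : ∃ i, ¬ (3 : ℤ) ∣ Multiplicative.toAdd (expo i w)
  · obtain ⟨i, hi⟩ := hA
    obtain ⟨n, hn⟩ := average Gp V
    rw [sum_const i w hi (fun g => star (V.character g))]
    refine ⟨Fintype.card ({j : Fin r // j ≠ i} → Gp) * n, ?_⟩
    rw [mul_left_comm, hn]
    push_cast
    rfl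
  · push Not at hA
    rcases Nat.lt_or_ge 1 r with h2 | h1
    · obtain ⟨s, hs1, hs2⟩ := sum_word (Q := Gp) h2 w
        (fun q => star (V.character q)) (fun q x => by rw [FDRep.char_conj])
        (fun x => CharInt.isIntegral_star (CharInt.isIntegral_char V x))
      have hN : (Nat.card Gp : ℂ) ≠ 0 := by
        have : 0 < Nat.card Gp := Nat.card_pos
        exact_mod_cast this.ne'
      have h3 : ∀ x : Fin r → Gp, ∃ n : ℤ, star (V.character (FreeGroup.lift x w)) +
          star (V.character (FreeGroup.lift x w)⁻¹) = n := by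
        intro x
        obtain ⟨n, hn⟩ := char_add_inv V (FreeGroup.lift x w) (Zr_cube _ (Zr_lift w hA x))
        refine ⟨n, ?_⟩
        rw [← star_add, hn]
        simp
      choose n hn using h3
      have h4 : (2 : ℂ) * ((Nat.card Gp : ℂ) * s) = ((∑ x, n x : ℤ) : ℂ) := by
        have h5 := sum_inv w hA (fun g => star (V.character g))
        rw [hs2] at h5
        push_cast
        rw [← Finset.sum_congr rfl fun x _ => hn x, Finset.sum_add_distrib, ← h5, hs2]
        ring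
      obtain ⟨m, hm⟩ := CharInt.int_of_rat hs1 (∑ x, n x) (2 * Nat.card Gp)
        (by
          have : 0 < Nat.card Gp := Nat.card_pos
          positivity)
        (by
          rw [← h4]
          push_cast
          ring)
      refine ⟨m, ?_⟩
      rw [hs2, inv_mul_cancel_left₀ hN, hm]
    · obtain rfl : r = 1 := le_antisymm h1 hr
      obtain ⟨k, hk⟩ := hA 0
      have h3 : ∀ x : Fin 1 → Gp, FreeGroup.lift x w = pw k (x 0) := by
        intro x
        have h4 : x = Pi.mulSingle 0 (x 0) := by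
          ext1 j
          obtain rfl : j = 0 := Subsingleton.elim _ _
          rw [Pi.mulSingle_eq_same]
        rw [h4, lift_mulSingle, hk, Pi.mulSingle_eq_same]
        rfl
      have h5 : ∑ x : Fin 1 → Gp, star (V.character (pw k (x 0))) =
          ∑ g : Gp, star (V.character (pw k g)) :=
        Fintype.sum_equiv (Equiv.funUnique (Fin 1) Gp) _ _ (fun x => rfl)
      rw [Finset.sum_congr rfl fun x _ => by rw [h3 x], h5]
      exact average Gp (CharInt.infl (pw k) V)

end Pool.Agent.R677.AbsWord
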